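import Mathlib
import Pool.Agent.H6.PackD

set_option autoImplicit false

namespace Pool.Agent.Results.MP_bde484_co.Counter

/-- `X` is a `d`-distance dominating set -/
def Dom {V : Type} (G : SimpleGraph V) (d : ℕ) (X : Finset V) : Prop :=
  ∀ u ∉ X, ∃ x ∈ X, G.dist u x ≤ d

/-- `X` is a `p`-packing -/
def Pack {V : Type} (G : SimpleGraph V) (p : ℕ) (X : Finset V) : Prop :=
  ∀ u ∈ X, ∀ v ∈ X, u ≠ v → p + 1 ≤ G.dist u v

theorem result : ∃ (p d n : ℕ) (T : SimpleGraph (Fin n)), 3 ≤ p ∧ p ≤ d ∧ T.IsTree ∧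
    ∀ X : Finset (Fin n), Dom T d X → Pack T p X →
      ((n : ℝ) - 2 * Real.sqrt n + d + 1) / d < X.card := by
  refine ⟨6, 6, 103, Pool.Agent.H6.PackD.G, by norm_num, le_rfl, Pool.Agent.H6.PackD.tree,
    fun X h1 h2 => ?_⟩
  have h : (15 : ℝ) ≤ X.card := by exact_mod_cast Pool.Agent.H6.PackD.main X h1 h2
  have s : (10 : ℝ) < Real.sqrt (103 : ℕ) := Real.lt_sqrt_of_sq_lt (by norm_num)
  push_cast at s ⊢
  linarith

end Pool.Agent.Results.MP_bde484_co.Counter
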